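import Mathlib
import Pool.Agent.Lib.MP_7ce1ef_co.Defs
import Pool.Agent.Lib.MP_7ce1ef_co.Answer

/-!
# Steffen's girth bound and ring subgraphs: the complete answer for connected graphs

For odd `g ≥ 3` and `μ ≥ g` we determine exactly when there is a connected graph of girth `g` and
maximum multiplicity `μ` which attains Steffen's bound and has no ring subgraph of order `g` with
the same chromatic index.
-/

namespace Pool.Agent.Results.MP_7ce1ef_co.SteffenRingConnected

open Pool.Agent.Lib.MP_7ce1ef_co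

theorem result (g μ : ℕ) (hodd : Odd g) (hg : 3 ≤ g) (hμ : g ≤ μ) :
    (∃ (V E : Type) (_ : Finite V) (_ : Finite E) (G : Multigraph V E),
        G.simple.Connected ∧
        G.girth = g ∧ G.maxMult = μ ∧ G.AttainsSteffen ∧ ¬ G.HasRingSubgraph g) ↔
      (g = 3 ∨ ⌈((μ - 1 : ℕ) : ℚ) / (((g + 1) / 2 : ℕ) : ℚ)⌉₊
        = ⌈(μ : ℚ) / (((g - 1) / 2 : ℕ) : ℚ)⌉₊) :=
  (answer g μ hodd hg hμ).2

end Pool.Agent.Results.MP_7ce1ef_co.SteffenRingConnected
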